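import Mathlib

set_option autoImplicit false

/-! Sums over lacunary scales. -/

namespace Pool.Agent.J6H17.SH

open Finset

section
variable {N : ℕ} {K κ : ℝ} {H a b : ℕ → ℝ}

theorem sum_scales (hK : 2 ≤ K) (hH : ∀ j < N, 0 ≤ H j) (hHK : ∀ j, j + 1 < N → K * H j ≤ H (j + 1)) :
    ∀ j < N, K * ∑ i ∈ range j, H i ≤ 2 * H j := by
  intro j
  induction j with
  | zero =>
    intro h
    simp only [range_zero, sum_empty, mul_zero]
    linarith [hH 0 h]
  | succ j ih =>
    intro h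
    have h1 := ih (by omega)
    have h2 := hHK j h
    have h3 := hH j (by omega)
    have h0 : 0 ≤ ∑ i ∈ range j, H i := sum_nonneg fun i hi => hH i (by
      have := mem_range.1 hi
      omega)
    rw [sum_range_succ, mul_add]
    have h4 : K * H j ≤ H (j + 1) := h2
    have h5 : 2 * H j ≤ K * H j := mul_le_mul_of_nonneg_right hK h3
    linarith

theorem scale_le (hK : 2 ≤ K) (hH : ∀ j < N, 0 ≤ H j) (hHK : ∀ j, j + 1 < N → K * H j ≤ H (j + 1))
    {i j : ℕ} (hij : i < j) (hj : j < N) : K * H i ≤ H j := by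
  induction j with
  | zero => omega
  | succ j ih =>
    rcases Nat.lt_succ_iff_lt_or_eq.1 hij with h | h
    · have h1 := ih h (by omega)
      have h2 := hHK j hj
      have h3 := hH j (by omega)
      nlinarith
    · rw [h]
      exact hHK j hj

theorem agree_bound (hK : 2 ≤ K) (hH : ∀ j < N, 0 ≤ H j) (hHK : ∀ j, j + 1 < N → K * H j ≤ H (j + 1))
    (ha : ∀ j < N, 0 ≤ a j ∧ a j ≤ 1) {s : ℕ} (hs : s < N) (hab : ∀ j, s < j → j < N → a j = b j) :
    0 ≤ ∑ j ∈ range N, H j * a j - ∑ j ∈ Ico (s + 1) N, H j * b j - H s * a s ∧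
    K * (∑ j ∈ range N, H j * a j - ∑ j ∈ Ico (s + 1) N, H j * b j - H s * a s) ≤ 2 * H s := by
  have h1 : ∑ j ∈ range N, H j * a j = ∑ j ∈ range s, H j * a j + H s * a s +
      ∑ j ∈ Ico (s + 1) N, H j * a j := by
    rw [← sum_range_succ]
    exact (sum_range_add_sum_Ico _ (by omega)).symm
  have h2 : ∑ j ∈ Ico (s + 1) N, H j * a j = ∑ j ∈ Ico (s + 1) N, H j * b j := by
    apply sum_congr rfl
    intro j hj
    have h3 := mem_Ico.1 hj
    rw [hab j (by omega) h3.2]
  have h4 : ∑ j ∈ range N, H j * a j - ∑ j ∈ Ico (s + 1) N, H j * b j - H s * a s =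
      ∑ j ∈ range s, H j * a j := by
    rw [h1, h2]
    ring
  rw [h4]
  constructor
  · apply sum_nonneg
    intro i hi
    have := mem_range.1 hi
    exact mul_nonneg (hH i (by omega)) (ha i (by omega)).1
  · refine le_trans ?_ (sum_scales hK hH hHK s hs)
    apply mul_le_mul_of_nonneg_left _ (by linarith)
    apply sum_le_sum
    intro i hi
    have := mem_range.1 hi
    have h5 := hH i (by omega)
    have h6 := (ha i (by omega)).2
    nlinarith

theorem nonagree_bound (hκ : 0 < κ) (hK : 2 ≤ K) (hKκ : 4 ≤ κ * K) (hH : ∀ j < N, 0 ≤ H j)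
    (hHK : ∀ j, j + 1 < N → K * H j ≤ H (j + 1))
    (ha : ∀ j < N, 0 ≤ a j ∧ a j ≤ 1) (hb : ∀ j < N, 0 ≤ b j ∧ b j ≤ 1) {s : ℕ} (hs : s < N)
    (hgap : ∀ j < N, a j ≠ b j → κ ≤ |a j - b j|) (hne : ∃ j, s < j ∧ j < N ∧ a j ≠ b j) :
    κ / 2 * (K * H s) ≤ |∑ j ∈ range N, H j * a j - ∑ j ∈ Ico (s + 1) N, H j * b j| := by
  classical
  let D : Finset ℕ := (range N).filter (fun j => s < j ∧ a j ≠ b j)
  have hDne : D.Nonempty := by
    obtain ⟨j, h1, h2, h3⟩ := hne
    exact ⟨j, mem_filter.2 ⟨mem_range.2 h2, h1, h3⟩⟩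
  obtain ⟨m, hm1, hm2⟩ : ∃ m ∈ D, ∀ j ∈ D, j ≤ m :=
    ⟨D.max' hDne, D.max'_mem hDne, fun j hj => D.le_max' j hj⟩
  obtain ⟨hmN, hms, hmne⟩ := mem_filter.1 hm1
  rw [mem_range] at hmN
  have h1 : ∑ j ∈ range N, H j * a j = ∑ j ∈ range m, H j * a j + H m * a m +
      ∑ j ∈ Ico (m + 1) N, H j * a j := by
    rw [← sum_range_succ]
    exact (sum_range_add_sum_Ico _ (by omega)).symm
  have h2 : ∑ j ∈ Ico (s + 1) N, H j * b j = ∑ j ∈ Ico (s + 1) m, H j * b j + H m * b m +
      ∑ j ∈ Ico (m + 1) N, H j * b j := by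
    rw [← sum_Ico_succ_top (by omega)]
    exact (sum_Ico_consecutive _ (by omega) (by omega)).symm
  have h3 : ∑ j ∈ Ico (m + 1) N, H j * a j = ∑ j ∈ Ico (m + 1) N, H j * b j := by
    apply sum_congr rfl
    intro j hj
    have h4 := mem_Ico.1 hj
    by_contra h5
    have h6 : a j ≠ b j := fun h => h5 (by rw [h])
    have := hm2 j (mem_filter.2 ⟨mem_range.2 h4.2, by omega, h6⟩)
    omega
  have h5 : ∑ j ∈ range N, H j * a j - ∑ j ∈ Ico (s + 1) N, H j * b j =
      H m * (a m - b m) + (∑ j ∈ range m, H j * a j - ∑ j ∈ Ico (s + 1) m, H j * b j) := by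
    rw [h1, h2, h3]
    ring
  have hHm := hH m hmN
  have hS := sum_scales hK hH hHK m hmN
  have h6 : 0 ≤ ∑ j ∈ range m, H j * a j := sum_nonneg fun i hi => by
    have := mem_range.1 hi
    exact mul_nonneg (hH i (by omega)) (ha i (by omega)).1
  have h7 : ∑ j ∈ range m, H j * a j ≤ ∑ j ∈ range m, H j := by
    apply sum_le_sum
    intro i hi
    have := mem_range.1 hi
    have h8 := hH i (by omega)
    have h9 := (ha i (by omega)).2
    nlinarith
  have h8 : 0 ≤ ∑ j ∈ Ico (s + 1) m, H j * b j := sum_nonneg fun i hi => by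
    have := mem_Ico.1 hi
    exact mul_nonneg (hH i (by omega)) (hb i (by omega)).1
  have h9 : ∑ j ∈ Ico (s + 1) m, H j * b j ≤ ∑ j ∈ range m, H j := by
    calc ∑ j ∈ Ico (s + 1) m, H j * b j ≤ ∑ j ∈ Ico (s + 1) m, H j := by
          apply sum_le_sum
          intro i hi
          have := mem_Ico.1 hi
          have h8 := hH i (by omega)
          have h9 := (hb i (by omega)).2
          nlinarith
      _ ≤ ∑ j ∈ range m, H j := by
          apply sum_le_sum_of_subset_of_nonneg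
          · intro i hi
            have := mem_Ico.1 hi
            exact mem_range.2 (by omega)
          · intro i hi _
            exact hH i (by have := mem_range.1 hi; omega)
  have h10 : |∑ j ∈ range m, H j * a j - ∑ j ∈ Ico (s + 1) m, H j * b j| ≤ ∑ j ∈ range m, H j := by
    rw [abs_le]
    constructor <;> linarith
  have h11 := hgap m hmN hmne
  have h12 : κ * H m ≤ |H m * (a m - b m)| := by
    rw [abs_mul, abs_of_nonneg hHm]
    nlinarith
  have h13 := scale_le hK hH hHK hms hmN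
  have h14 : |H m * (a m - b m)| - |∑ j ∈ range m, H j * a j - ∑ j ∈ Ico (s + 1) m, H j * b j| ≤
      |∑ j ∈ range N, H j * a j - ∑ j ∈ Ico (s + 1) N, H j * b j| := by
    rw [h5]
    have := abs_sub_abs_le_abs_sub (H m * (a m - b m))
      (-(∑ j ∈ range m, H j * a j - ∑ j ∈ Ico (s + 1) m, H j * b j))
    rwa [abs_neg, sub_neg_eq_add] at this
  -- `∑ ≤ κ / 2 * H m`
  have h15 : ∑ j ∈ range m, H j ≤ κ / 2 * H m := by
    have h16 : 0 ≤ ∑ j ∈ range m, H j := h6.trans h7
    have h17 : 4 * ∑ j ∈ range m, H j ≤ κ * K * ∑ j ∈ range m, H j := mul_le_mul_of_nonneg_right hKκ h16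
    have h18 : κ * (K * ∑ j ∈ range m, H j) ≤ κ * (2 * H m) := mul_le_mul_of_nonneg_left hS hκ.le
    nlinarith
  have h19 : κ / 2 * (K * H s) ≤ κ / 2 * H m := mul_le_mul_of_nonneg_left h13 (by positivity)
  linarith

end

end Pool.Agent.J6H17.SH
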