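import Pool.Agent.J6H13.RL.Fin
import Pool.Agent.J6H13.RL.Pts

set_option autoImplicit false

/-! The coloured Maynard-Tao theorem inside the record windows, for arbitrary prime positions. -/

namespace Pool.Agent.J6H17.SH

open Finset Filter
open Pool.Agent.TH779.Ord (fn)
open Pool.Agent.H378R2 (yy)
open Pool.Agent.H256R2.SC (ff)
open Pool.Agent.H362R2.RQ (dvd_of_primes fib)
open Pool.Agent.J6H13.RL (StRL cdiv fib_cdiv)

theorem placeT (h : StRL) : ∃ C₁ c₀ : ℝ, 0 < C₁ ∧ 0 < c₀ ∧ ∀ (B b : ℕ) (lam : ℝ), 1 ≤ B → b ≤ B → 1 ≤ lam →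
    C₁ * lam * B ≤ 2 ^ b → ∃ c : ℝ, 0 < c ∧
    ∀ q a : ℕ, Squarefree q → a.Coprime q →
    ∃ X0 : ℝ, ∀ X : ℝ, X0 ≤ X → ∀ F : ℝ, F ≤ c * ff X →
    ∀ t : ℕ → ℕ, (∀ x < 2 ^ B, (t x).Prime ∧ t x ≡ a [MOD q] ∧ Real.log X < t x ∧ (t x : ℝ) ≤ F) →
    (∀ x < 2 ^ B, ∀ x' < 2 ^ B, t x = t x' → x = x') →
    ∀ bad : Finset ℕ, (bad.card : ℝ) ≤ X ^ (9 / 10 : ℝ) →
    ∃ n : ℕ, X < n ∧ (n : ℝ) ≤ 3 * X ∧ n ∉ bad ∧ ∃ J : Finset ℕ,
      (∀ x ∈ J, x < 2 ^ B ∧ (n + t x).Prime ∧ n + t x ≡ a [MOD q]) ∧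
      (∀ s : ℕ, (s : ℝ) ≤ F → (n + s).Prime → ∃ x ∈ J, s = t x) ∧
      c₀ * B ≤ ∑ g ∈ range (2 ^ b), fn lam (J.filter (fun x => x / 2 ^ (B - b) = g)).card := by
  classical
  obtain ⟨C₁, c₀, hC₁, hc₀, hmain⟩ := h
  refine ⟨C₁, c₀, hC₁, hc₀, ?_⟩
  intro B b lam hB hb hlam hCB
  obtain ⟨c, hc, hX1'⟩ := hmain B (2 ^ b) lam hB Nat.one_le_two_pow hlam (by push_cast; exact hCB)
  refine ⟨c, hc, ?_⟩
  intro q a hqsf haq
  have hq0 : 0 < q := Nat.pos_of_ne_zero hqsf.ne_zero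
  obtain ⟨X1, hX1⟩ := hX1' q
  have hev : ∀ᶠ X : ℝ in atTop, X1 ≤ X ∧ 0 ≤ Real.log X :=
    (eventually_ge_atTop X1).and (Real.tendsto_log_atTop.eventually_ge_atTop 0)
  obtain ⟨X0, hX0⟩ := Filter.eventually_atTop.1 hev
  refine ⟨X0, fun X hX F hF t ht htinj bad hbad => ?_⟩
  obtain ⟨hXX1, hlX⟩ := hX0 X hX
  have htinj' : Function.Injective (fun j : Fin (2 ^ B) => t j) := by
    intro j j' hjj
    exact Fin.ext (htinj _ j.2 _ j'.2 hjj)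
  have htyy : ∀ x < 2 ^ B, yy X < t x := by
    intro x hx
    have h1 : (yy X : ℝ) ≤ Real.log X / 1000 := Nat.floor_le (by positivity)
    have h5 := (ht x hx).2.2.1
    have h6 : (yy X : ℝ) < t x := by linarith
    exact_mod_cast h6
  obtain ⟨n, hn1, hn2, hn3, hn4, hn5, hn6⟩ := hX1 X hXX1 (fun j => t j) htinj'
    (fun j => ⟨(ht j j.2).1, htyy j j.2, (ht j j.2).2.2.2.trans hF⟩) (cdiv B b hb) (fib_cdiv B b hb) bad hbad
  have hqn : q ∣ n := dvd_of_primes q n hqsf fun p hp hpq => hn6 p hp (Nat.le_of_dvd hq0 hpq)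
  refine ⟨n, hn1, hn2, hn3, (range (2 ^ B)).filter (fun x => (n + t x).Prime), ?_, ?_, ?_⟩
  · intro x hx
    rw [mem_filter, mem_range] at hx
    refine ⟨hx.1, hx.2, ?_⟩
    have h1 : n ≡ 0 [MOD q] := (Nat.modEq_zero_iff_dvd).2 hqn
    have h2 := h1.add (ht x hx.1).2.1
    rwa [zero_add] at h2
  · intro s hs hp
    obtain ⟨j, hj⟩ := hn5 s (hs.trans hF) hp
    refine ⟨j, ?_, hj⟩
    rw [mem_filter, mem_range]
    refine ⟨j.2, ?_⟩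
    rw [← hj]
    exact hp
  · refine hn4.trans (le_of_eq ?_)
    rw [← Fin.sum_univ_eq_sum_range (fun g => fn lam
      (((range (2 ^ B)).filter (fun x => (n + t x).Prime)).filter (fun x => x / 2 ^ (B - b) = g)).card) (2 ^ b)]
    apply sum_congr rfl
    intro g _
    congr 1
    apply card_bij (fun (j : Fin (2 ^ B)) _ => (j : ℕ))
    · intro j hj
      rw [mem_filter] at hj
      rw [mem_filter, mem_filter, mem_range]
      exact ⟨⟨j.2, hj.2.2⟩, congrArg Fin.val hj.2.1⟩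
    · intro j _ j' _ h
      exact Fin.ext h
    · intro x hx
      rw [mem_filter, mem_filter, mem_range] at hx
      refine ⟨⟨x, hx.1.1⟩, ?_, rfl⟩
      rw [mem_filter]
      exact ⟨mem_univ _, Fin.ext hx.2, hx.1.2⟩

end Pool.Agent.J6H17.SH
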