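import Pool.Agent.J6H17.SH.Prm
import Pool.Agent.J6H17.SH.Tpl
import Pool.Agent.J6H17.SH.Geo
import Pool.Agent.J6H17.NP.Lines

set_option autoImplicit false

/-! Every shape is followed at one of boundedly many separated scales. -/

namespace Pool.Agent.J6H17.SH

open Finset Filter
open Pool.Agent.TH779.Ord (fn el el_mem el_lt el_surj)
open Pool.Agent.H256R2.SC (ff)
open Pool.Agent.J6H13.RL (StRL stRL nth_block ev_growth fn_bound)
open Pool.Agent.Helper868.DHJ (DensityHJ LineFree pt density_hales_jewett)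
open Pool.Agent.J6H17.NP (par dens_eq)

/-- The indices `n` such that for some `r ≤ R` the primes `p_n < ... < p_(n+r)` are in `(X, 4 X]` and `≡ a` modulo
`q`, there are no other primes at distance `≤ A H` from them, and they follow the shape `S` at the scale `H` up to
the error `ε H`. -/
def Fol (R q a : ℕ) (A ε X H : ℝ) (S : Finset ℝ) : Set ℕ :=
  {n | ∃ r ≤ R, X < Nat.nth Nat.Prime n ∧ (Nat.nth Nat.Prime (n + r) : ℝ) ≤ 4 * X ∧
    (∀ i ≤ r, Nat.nth Nat.Prime (n + i) ≡ a [MOD q]) ∧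
    (∀ p : ℕ, p.Prime → (Nat.nth Nat.Prime n : ℝ) ≤ p + A * H → (p : ℝ) ≤ Nat.nth Nat.Prime (n + r) + A * H →
      Nat.nth Nat.Prime n ≤ p ∧ p ≤ Nat.nth Nat.Prime (n + r)) ∧
    ∃ x : ℝ, (∀ i ≤ r, ∃ s ∈ S, |(Nat.nth Nat.Prime (n + i) : ℝ) - x - H * s| ≤ ε * H) ∧
      ∀ s ∈ S, ∃ i ≤ r, |(Nat.nth Nat.Prime (n + i) : ℝ) - x - H * s| ≤ ε * H}

theorem fol_finite (R q a : ℕ) (A ε X H : ℝ) (S : Finset ℝ) : (Fol R q a A ε X H S).Finite := by
  apply Set.Finite.subset (Set.finite_le_nat ⌊4 * X⌋₊)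
  rintro n ⟨r, -, -, h2, -⟩
  have hinf : (Set.ofPred Nat.Prime).Infinite := Nat.infinite_setOfPred_prime
  have h1 : n ≤ Nat.nth Nat.Prime (n + r) :=
    (Nat.le_add_right n r).trans ((Nat.nth_strictMono hinf).id_le _)
  have h3 : (n : ℝ) ≤ 4 * X := le_trans (by exact_mod_cast h1) h2
  exact Nat.le_floor h3

theorem exists_letters {k : ℕ} (S : Finset ℝ) (hne : S.Nonempty) (hk : S.card ≤ 2 ^ k) :
    ∃ V : Fin (2 ^ k) → ℝ, (∀ i, V i ∈ S) ∧ ∀ s ∈ S, ∃ i, V i = s := by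
  obtain ⟨s₀, hs₀⟩ := hne
  refine ⟨fun i => if h : (i : ℕ) < S.card then (S.equivFin.symm ⟨i, h⟩ : ℝ) else s₀, fun i => ?_,
    fun s hs => ?_⟩
  · by_cases h : (i : ℕ) < S.card
    · simp only [h, dite_true]
      exact (S.equivFin.symm ⟨i, h⟩).2
    · simp only [h, dite_false]
      exact hs₀
  · refine ⟨⟨S.equivFin ⟨s, hs⟩, lt_of_lt_of_le (S.equivFin ⟨s, hs⟩).2 hk⟩, ?_⟩
    simp

/-- rounding -/
noncomputable def rd (δ v : ℝ) : ℝ := δ * ⌊v / δ⌋₊

theorem rd_nonneg {δ v : ℝ} (hδ : 0 < δ) : 0 ≤ rd δ v := by unfold rd; positivity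

theorem rd_le {δ v : ℝ} (hδ : 0 < δ) (hv : 0 ≤ v) : rd δ v ≤ v := by
  unfold rd
  have h1 : (⌊v / δ⌋₊ : ℝ) ≤ v / δ := Nat.floor_le (by positivity)
  calc δ * (⌊v / δ⌋₊ : ℝ) ≤ δ * (v / δ) := mul_le_mul_of_nonneg_left h1 hδ.le
    _ = v := by field_simp

theorem le_rd {δ v : ℝ} (hδ : 0 < δ) : v ≤ rd δ v + δ := by
  unfold rd
  have h1 : v / δ < ⌊v / δ⌋₊ + 1 := Nat.lt_floor_add_one _
  have h2 : v / δ * δ ≤ (⌊v / δ⌋₊ + 1) * δ := mul_le_mul_of_nonneg_right h1.le hδ.le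
  rw [div_mul_cancel₀ _ hδ.ne'] at h2
  linarith

theorem rd_gap {δ v v' : ℝ} (hδ : 0 < δ) (h : rd δ v ≠ rd δ v') : δ ≤ |rd δ v - rd δ v'| := by
  unfold rd at h ⊢
  have h1 : (⌊v / δ⌋₊ : ℤ) ≠ ⌊v' / δ⌋₊ := by
    intro h2
    apply h
    have h3 : ⌊v / δ⌋₊ = ⌊v' / δ⌋₊ := by exact_mod_cast h2
    rw [h3]
  have h2 : (1 : ℤ) ≤ |(⌊v / δ⌋₊ : ℤ) - ⌊v' / δ⌋₊| := Int.one_le_abs (sub_ne_zero.2 h1)
  have h3 : (1 : ℝ) ≤ |(⌊v / δ⌋₊ : ℝ) - ⌊v' / δ⌋₊| := by exact_mod_cast h2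
  rw [← mul_sub, abs_mul, abs_of_pos hδ]
  nlinarith

/-- the positions of the possible primes -/
theorem positions {B : ℕ} {σ F₀ : ℝ} (hσ : 0 < σ) (cell : ℕ → ℝ) (hcell : ∀ x < 2 ^ B, 0 ≤ cell x) {q a : ℕ}
    (hP : ∀ z : ℝ, (∃ x < 2 ^ B, z = F₀ + rd σ (cell x) + x * (σ / 2 ^ B)) →
      ∃ p : ℕ, p.Prime ∧ p ≡ a [MOD q] ∧ z < p ∧ (p : ℝ) ≤ z + σ / 2 ^ B) :
    ∃ t : ℕ → ℕ, (∀ x < 2 ^ B, (t x).Prime ∧ t x ≡ a [MOD q] ∧ |(t x : ℝ) - F₀ - cell x| ≤ σ ∧ F₀ < t x) ∧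
      ∀ x < 2 ^ B, ∀ x' < 2 ^ B, t x = t x' → x = x' := by
  have hex : ∀ x : ℕ, ∃ p : ℕ, x < 2 ^ B → p.Prime ∧ p ≡ a [MOD q] ∧ F₀ + rd σ (cell x) + x * (σ / 2 ^ B) < p ∧
      (p : ℝ) ≤ F₀ + rd σ (cell x) + x * (σ / 2 ^ B) + σ / 2 ^ B := by
    intro x
    by_cases hx : x < 2 ^ B
    · obtain ⟨p, h1, h2, h3, h4⟩ := hP _ ⟨x, hx, rfl⟩
      exact ⟨p, fun _ => ⟨h1, h2, h3, h4⟩⟩
    · exact ⟨0, fun h => absurd h hx⟩
  choose t ht using hex
  have h2B : (0 : ℝ) < 2 ^ B := by positivity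
  have hω : 0 < σ / 2 ^ B := by positivity
  have hup : ∀ x : ℕ, x < 2 ^ B → (x : ℝ) * (σ / 2 ^ B) + σ / 2 ^ B ≤ σ := by
    intro x hx
    have h1 : (x : ℝ) + 1 ≤ 2 ^ B := by exact_mod_cast hx
    calc (x : ℝ) * (σ / 2 ^ B) + σ / 2 ^ B = (x + 1) * (σ / 2 ^ B) := by ring
      _ ≤ 2 ^ B * (σ / 2 ^ B) := mul_le_mul_of_nonneg_right h1 hω.le
      _ = σ := by field_simp
  have hlt : ∀ x < 2 ^ B, ∀ x' < 2 ^ B, rd σ (cell x) < rd σ (cell x') → t x < t x' := by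
    intro x hx x' hx' h
    have h1 := rd_gap hσ h.ne
    rw [abs_sub_comm, abs_of_pos (by linarith)] at h1
    have h2 := (ht x hx).2.2.2
    have h3 := (ht x' hx').2.2.1
    have h4 := hup x hx
    have h5 : 0 ≤ (x' : ℝ) * (σ / 2 ^ B) := by positivity
    have h6 : (t x : ℝ) < t x' := by linarith
    exact_mod_cast h6
  have hlt2 : ∀ x < 2 ^ B, ∀ x' < 2 ^ B, rd σ (cell x) = rd σ (cell x') → x < x' → t x < t x' := by
    intro x hx x' hx' h hxx
    have h2 := (ht x hx).2.2.2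
    have h3 := (ht x' hx').2.2.1
    have h4 : (x : ℝ) + 1 ≤ x' := by exact_mod_cast hxx
    have h5 : ((x : ℝ) + 1) * (σ / 2 ^ B) ≤ x' * (σ / 2 ^ B) := mul_le_mul_of_nonneg_right h4 hω.le
    have h6 : (t x : ℝ) < t x' := by
      rw [h] at h2
      linarith
    exact_mod_cast h6
  refine ⟨t, fun x hx => ⟨(ht x hx).1, (ht x hx).2.1, ?_, ?_⟩, ?_⟩
  · have h2 := (ht x hx).2.2.2
    have h3 := (ht x hx).2.2.1
    have h4 := hup x hx
    have h5 : 0 ≤ (x : ℝ) * (σ / 2 ^ B) := by positivity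
    have h6 := rd_le hσ (hcell x hx)
    have h7 := le_rd (v := cell x) hσ
    rw [abs_le]
    constructor <;> linarith
  · have h3 := (ht x hx).2.2.1
    have h5 : 0 ≤ (x : ℝ) * (σ / 2 ^ B) := by positivity
    have h6 := rd_nonneg (v := cell x) hσ
    linarith
  · intro x hx x' hx' h
    rcases lt_trichotomy (rd σ (cell x)) (rd σ (cell x')) with h1 | h1 | h1
    · exact absurd h (hlt x hx x' hx' h1).ne
    · rcases lt_trichotomy x x' with h2 | h2 | h2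
      · exact absurd h (hlt2 x hx x' hx' h1 h2).ne
      · exact h2
      · exact absurd h (hlt2 x' hx' x hx h1.symm h2).ne'
    · exact absurd h (hlt x' hx' x hx h1).ne'


/-- the values along a word -/
noncomputable def aw {N : ℕ} {α : Type} (g : ℕ → α → ℝ) (w : Fin N → α) (j : ℕ) : ℝ :=
  if hj : j < N then g j (w ⟨j, hj⟩) else 0

theorem aw_lt {N : ℕ} {α : Type} (g : ℕ → α → ℝ) (w : Fin N → α) {j : ℕ} (hj : j < N) :
    aw g w j = g j (w ⟨j, hj⟩) := by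
  unfold aw
  simp only [hj, dite_true]

theorem core_of (h : StRL) (k : ℕ) (hk : 1 ≤ k) : ∃ N R : ℕ, 1 ≤ N ∧ ∀ A : ℝ, 1 ≤ A → ∃ c : ℝ, 0 < c ∧
    ∀ ε : ℝ, 0 < ε → ∃ K : ℝ, 2 ≤ K ∧ ∀ q a : ℕ, Squarefree q → a.Coprime q →
    ∃ X₀ : ℝ, ∀ X : ℝ, X₀ ≤ X → ∀ H : ℕ → ℝ, Real.log X ≤ H 0 → (∀ j, j + 1 < N → K * H j ≤ H (j + 1)) →
    H (N - 1) ≤ c * ff X → ∀ S : ℕ → Finset ℝ,
    (∀ j < N, (S j).Nonempty ∧ (S j).card ≤ k ∧ ∀ s ∈ S j, 0 ≤ s ∧ s ≤ 1) →
      ∃ j < N, X ^ (7 / 8 : ℝ) ≤ ((Fol R q a A ε X (H j) (S j)).ncard : ℝ) := by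
  classical
  obtain ⟨C₁, c₀, hC₁, hc₀, hmain⟩ := placeT h
  obtain ⟨b₀, hb₀⟩ := par hC₁
  obtain ⟨N₀, hN₀⟩ := density_hales_jewett (Fin (2 ^ k)) (c₀ / (2 * C₁)) (by positivity)
  obtain ⟨N, hN⟩ : ∃ N : ℕ, N = max N₀ (max b₀ 1) := ⟨_, rfl⟩
  have hNN₀ : N₀ ≤ N := by rw [hN]; exact le_max_left _ _
  have hNb₀ : b₀ ≤ N := by rw [hN]; exact (le_max_left _ _).trans (le_max_right _ _)
  have hN1 : 1 ≤ N := by rw [hN]; exact (le_max_right _ _).trans (le_max_right _ _)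
  obtain ⟨b, hb⟩ : ∃ b : ℕ, b = k * N := ⟨_, rfl⟩
  have hbb₀ : b₀ ≤ b := by rw [hb]; exact hNb₀.trans (Nat.le_mul_of_pos_left N hk)
  have hCb := hb₀ b hbb₀
  obtain ⟨B, hB⟩ : ∃ B : ℕ, B = ⌊(2 : ℝ) ^ b / C₁⌋₊ := ⟨_, rfl⟩
  have hB1 : (B : ℝ) ≤ 2 ^ b / C₁ := by rw [hB]; exact Nat.floor_le (by positivity)
  have hB2 : (2 : ℝ) ^ b / C₁ < B + 1 := by rw [hB]; exact Nat.lt_floor_add_one _
  have hB3 : (b : ℝ) + 3 ≤ 2 ^ b / C₁ := by
    rw [le_div_iff₀ hC₁]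
    linarith
  have hbB : b ≤ B := by
    have : (b : ℝ) ≤ B := by linarith
    exact_mod_cast this
  have hB0 : 1 ≤ B := by
    have h1 : (0 : ℝ) ≤ b := Nat.cast_nonneg b
    have : (1 : ℝ) ≤ B := by linarith
    exact_mod_cast this
  have hCB : C₁ * 1 * B ≤ 2 ^ b := by
    rw [mul_one]
    rw [le_div_iff₀ hC₁] at hB1
    linarith
  have hcB : c₀ / (2 * C₁) * 2 ^ b ≤ c₀ * B := by
    have h1 : (0 : ℝ) ≤ b := Nat.cast_nonneg b
    have h2 : c₀ / (2 * C₁) * 2 ^ b = c₀ * (2 ^ b / C₁ / 2) := by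
      field_simp
    rw [h2]
    apply mul_le_mul_of_nonneg_left _ hc₀.le
    linarith
  obtain ⟨c₁, hc₁, hpl⟩ := hmain B b 1 hB0 hbB le_rfl hCB
  refine ⟨N, 2 ^ B, hN1, fun A hA => ⟨c₁ / (8 * A), by positivity, fun ε hε => ?_⟩⟩
  obtain ⟨ε', hε'⟩ : ∃ ε', ε' = min ε 1 := ⟨_, rfl⟩
  have hε0 : 0 < ε' := by rw [hε']; exact lt_min hε one_pos
  have hε1 : ε' ≤ 1 := by rw [hε']; exact min_le_right _ _
  have hεε : ε' ≤ ε := by rw [hε']; exact min_le_left _ _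
  obtain ⟨K, hK⟩ : ∃ K, K = 64 * (A + 3) / ε' := ⟨_, rfl⟩
  have hKε : ε' * K = 64 * (A + 3) := by rw [hK]; field_simp
  have hK0 : 0 < K := by rw [hK]; positivity
  have hK256 : 256 ≤ K := by
    have h1 : ε' * K ≤ 1 * K := mul_le_mul_of_nonneg_right hε1 hK0.le
    linarith
  refine ⟨K, by linarith, fun q a hqsf haq => ?_⟩
  have hq1 : 1 ≤ q := Nat.pos_of_ne_zero hqsf.ne_zero
  obtain ⟨X0, hX0⟩ := hpl q a hqsf haq
  have h2B : (0 : ℝ) < 2 ^ B := by positivity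
  obtain ⟨η, hη⟩ : ∃ η, η = ε' / 16 / 2 ^ B := ⟨_, rfl⟩
  have hη0 : 0 < η := by rw [hη]; positivity
  obtain ⟨Y0, hY0⟩ := Filter.eventually_atTop.1 (exists_prime_short q hq1 a haq 3)
  rw [← Filter.eventually_atTop]
  filter_upwards [eventually_ge_atTop X0, ev_growth N c₁, eventually_gt_atTop (0 : ℝ), short_ok c₁ η hη0,
    Real.tendsto_log_atTop.eventually_ge_atTop Y0,
    Pool.Agent.H312R2.RG.C3.ff_tendsto.eventually_ge_atTop 0] with X hXX0 hgr hXpos hshort hlY hff0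
  intro H hH0 hHK hHN S hS
  have hlogpos : 0 < Real.log X := hgr.2.2
  -- scales
  have hHpos : ∀ j < N, Real.log X ≤ H j := by
    intro j
    induction j with
    | zero => intro _; exact hH0
    | succ j ih =>
      intro hj
      have h1 := ih (by omega)
      have h2 := hHK j hj
      have h3 : 1 * H j ≤ K * H j := mul_le_mul_of_nonneg_right (by linarith) (by linarith)
      linarith
  have hHnn : ∀ j < N, 0 ≤ H j := fun j hj => hlogpos.le.trans (hHpos j hj)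
  have hH0j : ∀ j < N, H 0 ≤ H j := by
    intro j hj
    rcases Nat.eq_zero_or_pos j with h0 | h0
    · rw [h0]
    · have h1 := scale_le (by linarith) hHnn hHK h0 hj
      have h2 := hHnn 0 (by omega)
      nlinarith
  have hHjN : ∀ j < N, H j ≤ H (N - 1) := by
    intro j hj
    rcases Nat.lt_or_eq_of_le (show j ≤ N - 1 by omega) with h0 | h0
    · have h1 := scale_le (by linarith) hHnn hHK h0 (by omega)
      have h2 := hHnn j hj
      nlinarith
    · rw [h0]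
  obtain ⟨F, hF⟩ : ∃ F, F = 8 * A * H (N - 1) := ⟨_, rfl⟩
  have hHN0 : 0 < H (N - 1) := hlogpos.trans_le (hHpos _ (by omega))
  have hAH : H (N - 1) ≤ A * H (N - 1) := by nlinarith
  have hFpos : 0 < F := by rw [hF]; positivity
  have hF8 : 8 * H (N - 1) ≤ F := by rw [hF]; linarith
  have hFc : F ≤ c₁ * ff X := by
    rw [hF]
    have h1 : 8 * A * H (N - 1) ≤ 8 * A * (c₁ / (8 * A) * ff X) :=
      mul_le_mul_of_nonneg_left hHN (by positivity)
    refine h1.trans (le_of_eq ?_)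
    field_simp
  have hFX : F ≤ X := hFc.trans hgr.1
  by_contra hcon
  push Not at hcon
  set bad : Finset ℕ := (range N).biUnion (fun j => (fol_finite (2 ^ B) q a A ε X (H j) (S j)).toFinset.biUnion
    (fun m => Finset.Icc (Nat.nth Nat.Prime m - ⌊F⌋₊) (Nat.nth Nat.Prime m))) with hbad
  have hbadcard : (bad.card : ℝ) ≤ X ^ (9 / 10 : ℝ) := by
    have h8 : 0 ≤ X ^ (7 / 8 : ℝ) := (Real.rpow_pos_of_pos hXpos _).le
    have h1 : ∀ j ∈ range N, ((((fol_finite (2 ^ B) q a A ε X (H j) (S j)).toFinset.biUnion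
        (fun m => Finset.Icc (Nat.nth Nat.Prime m - ⌊F⌋₊) (Nat.nth Nat.Prime m))).card : ℕ) : ℝ) ≤
        X ^ (7 / 8 : ℝ) * (F + 1) := by
      intro j hj
      set W := Fol (2 ^ B) q a A ε X (H j) (S j) with hW
      have hWfin : W.Finite := fol_finite (2 ^ B) q a A ε X (H j) (S j)
      have h2 : (hWfin.toFinset.biUnion
        (fun m => Finset.Icc (Nat.nth Nat.Prime m - ⌊F⌋₊) (Nat.nth Nat.Prime m))).card ≤
          ∑ m ∈ hWfin.toFinset,
            (Finset.Icc (Nat.nth Nat.Prime m - ⌊F⌋₊) (Nat.nth Nat.Prime m)).card := card_biUnion_le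
      have h3 : ((hWfin.toFinset.biUnion
        (fun m => Finset.Icc (Nat.nth Nat.Prime m - ⌊F⌋₊) (Nat.nth Nat.Prime m))).card : ℝ) ≤
          ∑ m ∈ hWfin.toFinset,
            ((Finset.Icc (Nat.nth Nat.Prime m - ⌊F⌋₊) (Nat.nth Nat.Prime m)).card : ℝ) := by
        exact_mod_cast h2
      have h4 : ∀ m ∈ hWfin.toFinset,
            ((Finset.Icc (Nat.nth Nat.Prime m - ⌊F⌋₊) (Nat.nth Nat.Prime m)).card : ℝ) ≤ F + 1 := by
        intro m _
        rw [Nat.card_Icc]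
        have h5 : Nat.nth Nat.Prime m + 1 - (Nat.nth Nat.Prime m - ⌊F⌋₊) ≤ ⌊F⌋₊ + 1 := by omega
        have h6 : ((⌊F⌋₊ : ℕ) : ℝ) ≤ F := Nat.floor_le hFpos.le
        have h7 : ((Nat.nth Nat.Prime m + 1 - (Nat.nth Nat.Prime m - ⌊F⌋₊) : ℕ) : ℝ) ≤
          ((⌊F⌋₊ + 1 : ℕ) : ℝ) := by exact_mod_cast h5
        push_cast at h7 ⊢
        linarith
      refine (h3.trans (sum_le_sum h4)).trans ?_
      rw [sum_const, nsmul_eq_mul]
      have h9 := hcon j (mem_range.1 hj)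
      rw [← hW, Set.ncard_eq_toFinset_card _ hWfin] at h9
      exact mul_le_mul_of_nonneg_right h9.le (by linarith)
    have h2 : (bad.card : ℝ) ≤ ∑ j ∈ range N, ((((fol_finite (2 ^ B) q a A ε X (H j) (S j)).toFinset.biUnion
        (fun m => Finset.Icc (Nat.nth Nat.Prime m - ⌊F⌋₊) (Nat.nth Nat.Prime m))).card : ℕ) : ℝ) := by
      have h3 : bad.card ≤ ∑ j ∈ range N, ((fol_finite (2 ^ B) q a A ε X (H j) (S j)).toFinset.biUnion
        (fun m => Finset.Icc (Nat.nth Nat.Prime m - ⌊F⌋₊) (Nat.nth Nat.Prime m))).card := card_biUnion_le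
      exact_mod_cast h3
    refine (h2.trans (sum_le_sum h1)).trans ?_
    rw [sum_const, card_range, nsmul_eq_mul]
    calc (N : ℝ) * (X ^ (7 / 8 : ℝ) * (F + 1)) ≤ N * (X ^ (7 / 8 : ℝ) * (c₁ * ff X + 1)) := by
          apply mul_le_mul_of_nonneg_left _ (Nat.cast_nonneg N)
          exact mul_le_mul_of_nonneg_left (by linarith) h8
      _ = N * X ^ (7 / 8 : ℝ) * (c₁ * ff X + 1) := by ring
      _ ≤ _ := hgr.2.1
  -- letters and rounded shapes
  have hk2 : k ≤ 2 ^ k := Nat.lt_two_pow_self.le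
  have hVex : ∀ j, ∃ V : Fin (2 ^ k) → ℝ, j < N → (∀ i, V i ∈ S j) ∧ ∀ s ∈ S j, ∃ i, V i = s := by
    intro j
    by_cases hj : j < N
    · obtain ⟨V, hV⟩ := exists_letters (S j) (hS j hj).1 ((hS j hj).2.1.trans hk2)
      exact ⟨V, fun _ => hV⟩
    · exact ⟨fun _ => 0, fun h => absurd h hj⟩
  choose V hV using hVex
  obtain ⟨δ, hδ⟩ : ∃ δ, δ = ε' / 4 := ⟨_, rfl⟩
  have hδ0 : 0 < δ := by rw [hδ]; positivity
  set g : ℕ → Fin (2 ^ k) → ℝ := fun j i => rd δ (V j i) with hg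
  have hV01 : ∀ j < N, ∀ i, 0 ≤ V j i ∧ V j i ≤ 1 := fun j hj i => (hS j hj).2.2 _ ((hV j hj).1 i)
  have hg01 : ∀ j < N, ∀ i, 0 ≤ g j i ∧ g j i ≤ 1 := fun j hj i =>
    ⟨rd_nonneg hδ0, (rd_le hδ0 (hV01 j hj i).1).trans (hV01 j hj i).2⟩
  have haw01 : ∀ w : Fin N → Fin (2 ^ k), ∀ j < N, 0 ≤ aw g w j ∧ aw g w j ≤ 1 := by
    intro w j hj
    rw [aw_lt g w hj]
    exact hg01 j hj _
  set β : (Fin N → Fin (2 ^ k)) → ℝ := fun w => ∑ j ∈ range N, H j * aw g w j with hβ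
  have hβ0 : ∀ w, 0 ≤ β w := fun w => sum_nonneg fun j hj =>
    mul_nonneg (hHnn j (mem_range.1 hj)) (haw01 w j (mem_range.1 hj)).1
  have hβ2 : ∀ w, β w ≤ 2 * H (N - 1) := by
    intro w
    have h1 : β w ≤ ∑ j ∈ range N, H j := by
      apply sum_le_sum
      intro j hj
      have h2 := hHnn j (mem_range.1 hj)
      have h3 := (haw01 w j (mem_range.1 hj)).2
      nlinarith
    have h2 : ∑ j ∈ range N, H j = ∑ j ∈ range (N - 1), H j + H (N - 1) := by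
      rw [← sum_range_succ, Nat.sub_add_cancel hN1]
    have h3 := sum_scales (by linarith) hHnn hHK (N - 1) (by omega)
    have h4 : 0 ≤ ∑ j ∈ range (N - 1), H j := sum_nonneg fun j hj =>
      hHnn j (by have := mem_range.1 hj; omega)
    have h5 : 2 * ∑ j ∈ range (N - 1), H j ≤ K * ∑ j ∈ range (N - 1), H j :=
      mul_le_mul_of_nonneg_right (by linarith) h4
    linarith
  obtain ⟨K', hK'⟩ : ∃ K', K' = 2 ^ (B - b) := ⟨_, rfl⟩
  have hK'1 : 1 ≤ K' := by rw [hK']; exact Nat.one_le_two_pow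
  have hMK : 2 ^ b * K' = 2 ^ B := by rw [hK', ← pow_add, Nat.add_sub_cancel' hbB]
  have hdiv : ∀ x < 2 ^ B, x / K' < 2 ^ b := by
    intro x hx
    rw [Nat.div_lt_iff_lt_mul hK'1, hMK]
    exact hx
  have hcardW : Fintype.card (Fin N → Fin (2 ^ k)) = 2 ^ b := by
    rw [Fintype.card_fun, Fintype.card_fin, Fintype.card_fin, ← pow_mul, hb]
  set e : (Fin N → Fin (2 ^ k)) ≃ Fin (2 ^ b) := Fintype.equivFinOfCardEq hcardW with he
  have hpos2b : 0 < 2 ^ b := by positivity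
  set wd : ℕ → (Fin N → Fin (2 ^ k)) := fun x => e.symm ⟨x / K' % 2 ^ b, Nat.mod_lt _ hpos2b⟩ with hwd
  have hewd : ∀ x < 2 ^ B, ((e (wd x) : Fin (2 ^ b)) : ℕ) = x / K' := by
    intro x hx
    simp only [hwd, Equiv.apply_symm_apply]
    exact Nat.mod_eq_of_lt (hdiv x hx)
  obtain ⟨σ, hσ⟩ : ∃ σ, σ = ε' * H 0 / 16 := ⟨_, rfl⟩
  have hH00 : 0 < H 0 := hlogpos.trans_le hH0
  have hσ0 : 0 < σ := by rw [hσ]; positivity
  have hσj : ∀ j < N, σ ≤ ε' / 16 * H j := by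
    intro j hj
    rw [hσ]
    have := mul_le_mul_of_nonneg_left (hH0j j hj) hε0.le
    linarith
  have hσN : σ ≤ H (N - 1) := by
    have h1 := hσj (N - 1) (by omega)
    have h2 : ε' / 16 * H (N - 1) ≤ 1 * H (N - 1) := mul_le_mul_of_nonneg_right (by linarith) hHN0.le
    linarith
  obtain ⟨t, ht, htinj⟩ := positions (B := B) (σ := σ) (F₀ := F / 4) hσ0 (fun x => β (wd x))
    (fun x _ => hβ0 _) (q := q) (a := a) (by
      rintro z ⟨x, hx, hz⟩
      have h1 : 0 ≤ rd σ (β (wd x)) := rd_nonneg hσ0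
      have h2 := rd_le hσ0 (hβ0 (wd x))
      have h3 := hβ2 (wd x)
      have h4 : (x : ℝ) * (σ / 2 ^ B) ≤ σ := by
        have h5 : (x : ℝ) ≤ 2 ^ B := by exact_mod_cast hx.le
        calc (x : ℝ) * (σ / 2 ^ B) ≤ 2 ^ B * (σ / 2 ^ B) := mul_le_mul_of_nonneg_right h5 (by positivity)
          _ = σ := by field_simp
      have h5 : 0 ≤ (x : ℝ) * (σ / 2 ^ B) := by positivity
      have h6 : Real.log X ≤ z := by
        have h7 := hHpos (N - 1) (by omega)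
        rw [hz]
        linarith
      have h7 : z ≤ c₁ * ff X := by
        refine le_trans ?_ hFc
        rw [hz]
        linarith
      apply hY0 z (hlY.trans h6)
      refine (hshort z h6 h7).trans ?_
      rw [hη, hσ]
      have h8 : ε' / 16 / 2 ^ B * Real.log X ≤ ε' / 16 / 2 ^ B * H 0 :=
        mul_le_mul_of_nonneg_left hH0 (by positivity)
      refine h8.trans (le_of_eq ?_)
      ring)
  obtain ⟨n, hn1, hn2, hn3, J, hJ, hJex, hJsum⟩ := hX0 X hXX0 F hFc t (fun x hx => by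
    refine ⟨(ht x hx).1, (ht x hx).2.1, ?_, ?_⟩
    · have h1 := (ht x hx).2.2.2
      have h2 := hHpos (N - 1) (by omega)
      linarith
    · have h1 := (ht x hx).2.2.1
      rw [abs_le] at h1
      have h2 := hβ2 (wd x)
      linarith) htinj bad hbadcard
  rw [← hK'] at hJsum
  -- the classes which contain exactly one prime
  set A' : Set (Fin N → Fin (2 ^ k)) := {w | (J.filter (fun x => x / K' = e w)).card = 1} with hA'
  have hAcard : c₀ / (2 * C₁) ≤ Pool.Agent.Helper868.DHJ.dens A' := by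
    rw [dens_eq, hcardW, le_div_iff₀ (by positivity)]
    push_cast
    refine hcB.trans (hJsum.trans ?_)
    have h1 : ∀ g ∈ range (2 ^ b), fn 1 (J.filter (fun x => x / K' = g)).card ≤
        ((if (J.filter (fun x => x / K' = g)).card = 1 then 1 else 0 : ℕ) : ℝ) := by
      intro g _
      have h2 := fn_bound 1 le_rfl (J.filter (fun x => x / K' = g)).card
      push_cast at h2 ⊢
      linarith
    refine (sum_le_sum h1).trans ?_
    rw [← Nat.cast_sum, ← card_filter]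
    have h3 : ((range (2 ^ b)).filter (fun g => (J.filter (fun x => x / K' = g)).card = 1)).card ≤
        (univ.filter (· ∈ A')).card := by
      have h4 : (range (2 ^ b)).filter (fun g => (J.filter (fun x => x / K' = g)).card = 1) ⊆
          (univ.filter (· ∈ A')).image (fun w => ((e w : Fin (2 ^ b)) : ℕ)) := by
        intro g hg
        rw [mem_filter, mem_range] at hg
        rw [mem_image]
        refine ⟨e.symm ⟨g, hg.1⟩, ?_, ?_⟩
        · rw [mem_filter]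
          refine ⟨mem_univ _, ?_⟩
          simp only [hA', Set.mem_ofPred_eq, Equiv.apply_symm_apply]
          exact hg.2
        · rw [Equiv.apply_symm_apply]
      exact (card_le_card h4).trans card_image_le
    exact_mod_cast h3
  obtain ⟨u', hu', hline⟩ : ∃ u' : Fin N → Option (Fin (2 ^ k)), (∃ i, u' i = none) ∧
      ∀ j, pt u' j ∈ A' := by
    by_contra hno
    push Not at hno
    have h1 : LineFree A' := fun u' hu' => hno u' hu'
    have h2 := hN₀ (Fin N) (by rw [Fintype.card_fin]; exact hNN₀) A' h1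
    linarith
  have hxex : ∀ i, ∃ x ∈ J, wd x = pt u' i := by
    intro i
    have h1 : (J.filter (fun x => x / K' = e (pt u' i))).card = 1 := hline i
    obtain ⟨x, hx⟩ := card_pos.1 (by rw [h1]; exact one_pos)
    rw [mem_filter] at hx
    refine ⟨x, hx.1, ?_⟩
    apply e.injective
    apply Fin.ext
    rw [hewd x (hJ x hx.1).1, hx.2]
  -- the highest active coordinate
  set JJ : Finset (Fin N) := univ.filter (fun j => u' j = none) with hJJ
  have hJJne : JJ.Nonempty := by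
    obtain ⟨j, hj⟩ := hu'
    exact ⟨j, by simp [hJJ, hj]⟩
  obtain ⟨⟨s, hsN⟩, hs1, hs2⟩ : ∃ jf : Fin N, u' jf = none ∧ ∀ j : Fin N, jf < j → ∃ y, u' j = some y := by
    refine ⟨JJ.max' hJJne, (mem_filter.1 (JJ.max'_mem hJJne)).2, fun j hj => ?_⟩
    apply Option.ne_none_iff_exists'.1
    intro h
    have : j ≤ JJ.max' hJJne := JJ.le_max' j (by simp [hJJ, h])
    exact absurd hj (not_lt.2 this)
  have hi0 : 0 < 2 ^ k := by positivity
  set Lw := pt u' ⟨0, hi0⟩ with hLw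
  have hfix : ∀ i (j : ℕ) (hj : j < N), s < j → pt u' i ⟨j, hj⟩ = Lw ⟨j, hj⟩ := by
    intro i j hj hlt
    obtain ⟨y, hy⟩ := hs2 ⟨j, hj⟩ hlt
    simp only [hLw, pt, hy, Option.getD_some]
  have hact : ∀ i, pt u' i ⟨s, hsN⟩ = i := by
    intro i
    simp only [pt, hs1, Option.getD_none]
  obtain ⟨T0, hT0⟩ : ∃ T0, T0 = ∑ j ∈ Ico (s + 1) N, H j * aw g Lw j := ⟨_, rfl⟩
  have hHs := hHnn s hsN
  have hHs0 : 0 < H s := hlogpos.trans_le (hHpos s hsN)
  have hAg : ∀ w : Fin N → Fin (2 ^ k), (∀ j, s < j → j < N → aw g w j = aw g Lw j) →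
      |β w - T0 - H s * V s (w ⟨s, hsN⟩)| ≤ 5 / 16 * ε' * H s := by
    intro w hw
    obtain ⟨h1, h2⟩ := agree_bound (K := K) (b := aw g Lw) (by linarith) hHnn hHK (haw01 w) hsN hw
    have h3 : aw g w s = rd δ (V s (w ⟨s, hsN⟩)) := by rw [aw_lt g w hsN]
    have h4 := rd_le hδ0 (hV01 s hsN (w ⟨s, hsN⟩)).1
    have h5 := le_rd (v := V s (w ⟨s, hsN⟩)) hδ0
    rw [← h3] at h4 h5
    have h6 : ∑ j ∈ range N, H j * aw g w j - ∑ j ∈ Ico (s + 1) N, H j * aw g Lw j - H s * aw g w s =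
        β w - T0 - H s * aw g w s := by rw [hT0]
    rw [h6] at h1 h2
    have h7 : β w - T0 - H s * aw g w s ≤ ε' / 16 * H s := by
      have h8 : ε' * (K * (β w - T0 - H s * aw g w s)) ≤ ε' * (2 * H s) := mul_le_mul_of_nonneg_left h2 hε0.le
      have h9 : ε' * (K * (β w - T0 - H s * aw g w s)) = 64 * (A + 3) * (β w - T0 - H s * aw g w s) := by
        rw [← hKε]; ring
      rw [h9] at h8
      have h10 : 64 * 4 * (β w - T0 - H s * aw g w s) ≤ 64 * (A + 3) * (β w - T0 - H s * aw g w s) :=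
        mul_le_mul_of_nonneg_right (by linarith) h1
      have h11 : 0 ≤ ε' * H s := by positivity
      linarith
    have h8 : H s * aw g w s ≤ H s * V s (w ⟨s, hsN⟩) := mul_le_mul_of_nonneg_left h4 hHs
    have h9 : H s * V s (w ⟨s, hsN⟩) ≤ H s * (aw g w s + δ) := mul_le_mul_of_nonneg_left h5 hHs
    rw [mul_add, hδ] at h9
    have h11 : 0 ≤ ε' * H s := by positivity
    rw [abs_le]
    constructor <;> linarith
  have hNag : ∀ w : Fin N → Fin (2 ^ k), ¬ (∀ j, s < j → j < N → aw g w j = aw g Lw j) →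
      8 * (A + 3) * H s ≤ |β w - T0| := by
    intro w hw
    push Not at hw
    obtain ⟨j, h1, h2, h3⟩ := hw
    have h4 := nonagree_bound (K := K) (κ := δ) (a := aw g w) (b := aw g Lw) hδ0 (by linarith) (by
      have : δ * K = 16 * (A + 3) := by rw [hδ]; linarith
      linarith) hHnn hHK (haw01 w) (haw01 Lw) hsN (by
      intro j hj hne
      rw [aw_lt g w hj, aw_lt g Lw hj] at hne ⊢
      exact rd_gap hδ0 hne) ⟨j, h1, h2, h3⟩
    have h5 : δ / 2 * (K * H s) = 8 * (A + 3) * H s := by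
      rw [hδ]
      have : ε' / 4 / 2 * (K * H s) = ε' * K / 8 * H s := by ring
      rw [this, hKε]
      ring
    rw [h5] at h4
    rw [hT0]
    exact h4
  -- the primes of the run
  set O : Finset ℕ := J.filter (fun x => ∀ j, s < j → j < N → aw g (wd x) j = aw g Lw j) with hO
  have htO : ∀ x ∈ O, |(t x : ℝ) - (F / 4 + T0) - H s * V s (wd x ⟨s, hsN⟩)| ≤ 3 / 8 * ε' * H s := by
    intro x hx
    rw [hO, mem_filter] at hx
    have h1 := hAg (wd x) hx.2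
    have h2 := (ht x (hJ x hx.1).1).2.2.1
    have h3 := hσj s hsN
    rw [abs_le] at h1 h2 ⊢
    constructor <;> linarith [h1.1, h1.2, h2.1, h2.2]
  have htO2 : ∀ x ∈ O, -H s ≤ (t x : ℝ) - (F / 4 + T0) ∧ (t x : ℝ) - (F / 4 + T0) ≤ 2 * H s := by
    intro x hx
    have h1 := htO x hx
    have h2 := hV01 s hsN (wd x ⟨s, hsN⟩)
    have h3 : H s * V s (wd x ⟨s, hsN⟩) ≤ H s * 1 := mul_le_mul_of_nonneg_left h2.2 hHs
    have h4 : 0 ≤ H s * V s (wd x ⟨s, hsN⟩) := mul_nonneg hHs h2.1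
    have h5 : ε' * H s ≤ 1 * H s := mul_le_mul_of_nonneg_right hε1 hHs
    rw [abs_le] at h1
    constructor <;> linarith [h1.1, h1.2]
  have htN : ∀ x ∈ J, x ∉ O → (A + 3) * H s < |(t x : ℝ) - (F / 4 + T0)| := by
    intro x hx hxO
    have h1 : ¬ (∀ j, s < j → j < N → aw g (wd x) j = aw g Lw j) := by
      intro h2
      apply hxO
      rw [hO, mem_filter]
      exact ⟨hx, h2⟩
    have h2 := hNag (wd x) h1
    have h3 := (ht x (hJ x hx).1).2.2.1
    have h4 := hσj s hsN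
    have h5 : β (wd x) - T0 = ((t x : ℝ) - (F / 4 + T0)) - ((t x : ℝ) - F / 4 - β (wd x)) := by ring
    have h6 : |β (wd x) - T0| ≤ |(t x : ℝ) - (F / 4 + T0)| + |(t x : ℝ) - F / 4 - β (wd x)| := by
      rw [h5]
      exact abs_sub _ _
    have h7 : ε' * H s ≤ 1 * H s := mul_le_mul_of_nonneg_right hε1 hHs
    have h8 : 4 * H s ≤ (A + 3) * H s := mul_le_mul_of_nonneg_right (by linarith) hHs
    nlinarith
  set T : Finset ℕ := O.image t with hT
  have hmemT : ∀ y, y ∈ T ↔ ∃ x ∈ O, t x = y := fun y => by rw [hT, mem_image]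
  have hxO : ∀ i, ∃ x ∈ O, wd x = pt u' i := by
    intro i
    obtain ⟨x, hx, hxw⟩ := hxex i
    refine ⟨x, ?_, hxw⟩
    rw [hO, mem_filter]
    refine ⟨hx, fun j h1 h2 => ?_⟩
    rw [aw_lt g _ h2, aw_lt g _ h2, hxw, hfix i j h2 h1]
  have hTpos : 0 < T.card := by
    obtain ⟨x, hx, -⟩ := hxO ⟨0, hi0⟩
    exact card_pos.2 ⟨t x, (hmemT _).2 ⟨x, hx, rfl⟩⟩
  have hTle : T.card ≤ 2 ^ B := by
    have h1 : O ⊆ range (2 ^ B) := fun x hx => mem_range.2 (hJ x (mem_filter.1 hx).1).1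
    have h2 := card_le_card h1
    rw [card_range] at h2
    exact card_image_le.trans h2
  obtain ⟨r, hr⟩ : ∃ r : ℕ, r = T.card - 1 := ⟨_, rfl⟩
  have hrT : ∀ i ≤ r, i < T.card := fun i hi => by omega
  have hTb : ∀ y ∈ T, -H s ≤ (y : ℝ) - (F / 4 + T0) ∧ (y : ℝ) - (F / 4 + T0) ≤ 2 * H s := by
    intro y hy
    obtain ⟨x, hx, rfl⟩ := (hmemT y).1 hy
    exact htO2 x hx
  have hTJ : ∀ y ∈ T, ∃ x ∈ J, t x = y := by
    intro y hy
    obtain ⟨x, hx, rfl⟩ := (hmemT y).1 hy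
    exact ⟨x, (mem_filter.1 hx).1, rfl⟩
  have hTF : ∀ y ∈ T, F / 4 < (y : ℝ) ∧ (y : ℝ) ≤ 3 / 4 * F - H (N - 1) := by
    intro y hy
    obtain ⟨x, hx, rfl⟩ := hTJ y hy
    have h1 := ht x (hJ x hx).1
    have h2 := h1.2.2.1
    rw [abs_le] at h2
    have h3 := hβ2 (wd x)
    refine ⟨h1.2.2.2, ?_⟩
    linarith [h2.2]
  have hnotin : ∀ x ∈ J, x ∉ O → ∀ y ∈ T, ∀ y' ∈ T, (y : ℝ) ≤ t x + A * H s →
      (t x : ℝ) ≤ y' + A * H s → False := by
    intro x hx hxO' y hy y' hy' h1 h2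
    have h3 := htN x hx hxO'
    have h4 := (hTb y hy).1
    have h5 := (hTb y' hy').2
    rw [lt_abs] at h3
    rcases h3 with h3 | h3
    · nlinarith
    · nlinarith
  have hel : ∀ i j, i < j → j ≤ r → el T i < el T j := fun i j hij hj => el_lt T hij (hrT j hj)
  have hbet : ∀ y ∈ T, el T 0 ≤ y ∧ y ≤ el T r := by
    intro y hy
    obtain ⟨i, hi, rfl⟩ := el_surj T hy
    constructor
    · rcases Nat.eq_zero_or_pos i with h0 | h0
      · rw [h0]
      · exact (el_lt T h0 hi).le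
    · rcases Nat.lt_or_eq_of_le (show i ≤ r by omega) with h0 | h0
      · exact (hel i r h0 le_rfl).le
      · rw [h0]
  obtain ⟨m, hm⟩ := nth_block n r (fun i => el T i) hel
    (fun i hi => by
      obtain ⟨x, hx, hx2⟩ := hTJ _ (el_mem T (hrT i hi))
      rw [← hx2]
      exact (hJ x hx).2.1)
    (by
      intro z hz1 hz2 hz3
      have hT0' := el_mem T (hrT 0 (Nat.zero_le _))
      have hTr := el_mem T (hrT r le_rfl)
      have h1 : (z : ℝ) ≤ el T r := by exact_mod_cast hz2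
      have h1' : (el T 0 : ℝ) ≤ z := by exact_mod_cast hz1
      have hzF : (z : ℝ) ≤ F := by
        have h2 := (hTF _ hTr).2
        linarith
      obtain ⟨x, hx, hzx⟩ := hJex z hzF hz3
      by_cases hxO' : x ∈ O
      · obtain ⟨i, hi, hi2⟩ := el_surj T ((hmemT z).2 ⟨x, hxO', hzx.symm⟩)
        exact ⟨i, by omega, hi2.symm⟩
      · exfalso
        have hAs : 0 ≤ A * H s := mul_nonneg (by linarith) hHs
        rw [hzx] at h1 h1'
        exact hnotin x hx hxO' _ hT0' _ hTr (by linarith) (by linarith))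
  have hmi : ∀ i ≤ r, Nat.nth Nat.Prime (m + i) = n + el T i := hm
  have hm0 : Nat.nth Nat.Prime m = n + el T 0 := by
    have := hmi 0 (Nat.zero_le _)
    rwa [add_zero] at this
  have hT0' := el_mem T (hrT 0 (Nat.zero_le _))
  have hTr := el_mem T (hrT r le_rfl)
  have hAHs : A * H s ≤ F / 8 := by
    rw [hF]
    have := mul_le_mul_of_nonneg_left (hHjN s hsN) (show (0 : ℝ) ≤ A by linarith)
    linarith
  have hmem : m ∈ Fol (2 ^ B) q a A ε X (H s) (S s) := by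
    refine ⟨r, by omega, ?_, ?_, ?_, ?_, (n : ℝ) + (F / 4 + T0), ?_, ?_⟩
    · rw [hm0]
      push_cast
      have : (0 : ℝ) ≤ el T 0 := Nat.cast_nonneg _
      linarith
    · rw [hmi r le_rfl]
      push_cast
      have h1 := (hTF _ hTr).2
      linarith
    · intro i hi
      rw [hmi i hi]
      obtain ⟨x, hx, hx2⟩ := hTJ _ (el_mem T (hrT i hi))
      rw [← hx2]
      exact (hJ x hx).2.2
    · intro p hp h1 h2
      rw [hm0] at h1 ⊢
      rw [hmi r le_rfl] at h2 ⊢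
      push_cast at h1 h2
      have h3 := (hTF _ hT0').1
      have h4 := (hTF _ hTr).2
      have h5 : (n : ℝ) ≤ p := by linarith
      have h6 : n ≤ p := by exact_mod_cast h5
      obtain ⟨z, rfl⟩ : ∃ z, p = n + z := ⟨p - n, by omega⟩
      push_cast at h1 h2
      obtain ⟨x, hx, hzx⟩ := hJex z (by linarith) hp
      by_cases hxO' : x ∈ O
      · have h7 := hbet z ((hmemT z).2 ⟨x, hxO', hzx.symm⟩)
        omega
      · exfalso
        rw [hzx] at h1 h2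
        exact hnotin x hx hxO' _ hT0' _ hTr (by linarith) (by linarith)
    · intro i hi
      obtain ⟨x, hx, hx2⟩ := (hmemT _).1 (el_mem T (hrT i hi))
      refine ⟨V s (wd x ⟨s, hsN⟩), (hV s hsN).1 _, ?_⟩
      rw [hmi i hi, ← hx2]
      have h1 := htO x hx
      have h2 : ε' * H s ≤ ε * H s := mul_le_mul_of_nonneg_right hεε hHs
      have h3 : 0 ≤ ε' * H s := by positivity
      push_cast
      have e1 : (n : ℝ) + t x - (n + (F / 4 + T0)) - H s * V s (wd x ⟨s, hsN⟩) =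
          (t x : ℝ) - (F / 4 + T0) - H s * V s (wd x ⟨s, hsN⟩) := by ring
      rw [e1]
      linarith
    · intro v hv
      obtain ⟨i0, hi0'⟩ := (hV s hsN).2 v hv
      obtain ⟨x, hx, hxw⟩ := hxO i0
      obtain ⟨i, hi, hi2⟩ := el_surj T ((hmemT (t x)).2 ⟨x, hx, rfl⟩)
      refine ⟨i, by omega, ?_⟩
      rw [hmi i (by omega), hi2]
      have h1 := htO x hx
      rw [hxw, hact, hi0'] at h1
      have h2 : ε' * H s ≤ ε * H s := mul_le_mul_of_nonneg_right hεε hHs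
      have h3 : 0 ≤ ε' * H s := by positivity
      push_cast
      have e1 : (n : ℝ) + t x - (n + (F / 4 + T0)) - H s * v =
          (t x : ℝ) - (F / 4 + T0) - H s * v := by ring
      rw [e1]
      linarith
  apply hn3
  rw [hbad, mem_biUnion]
  refine ⟨s, mem_range.2 hsN, ?_⟩
  rw [mem_biUnion]
  refine ⟨m, (Set.Finite.mem_toFinset _).2 hmem, ?_⟩
  rw [mem_Icc, hm0]
  have h2 : el T 0 ≤ ⌊F⌋₊ := by
    apply Nat.le_floor
    have := (hTF _ hT0').2
    linarith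
  constructor <;> omega

end Pool.Agent.J6H17.SH
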