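import Pool.Agent.J6H17.SH.Core

set_option autoImplicit false

/-! All scales with boundedly many exceptions. -/

namespace Pool.Agent.J6H17.SH

open Finset Filter
open Pool.Agent.H256R2.SC (ff)
open Pool.Agent.J6H13.RL (StRL stRL)

theorem scales (k : ℕ) (hk : 1 ≤ k) : ∃ N R : ℕ, ∀ A : ℝ, 1 ≤ A → ∃ c : ℝ, 0 < c ∧
    ∀ ε : ℝ, 0 < ε → ∃ K : ℝ, 2 ≤ K ∧ ∀ q a : ℕ, Squarefree q → a.Coprime q →
    ∃ X₀ : ℝ, ∀ X : ℝ, X₀ ≤ X → ∃ E : Finset ℝ, E.card ≤ N ∧
      ∀ H : ℝ, Real.log X ≤ H → H ≤ c * ff X → (∀ B ∈ E, K * H ≤ B ∨ K * B ≤ H) →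
      ∀ S : Finset ℝ, S.Nonempty → S.card ≤ k → (∀ s ∈ S, 0 ≤ s ∧ s ≤ 1) →
        X ^ (7 / 8 : ℝ) ≤ ((Fol R q a A ε X H S).ncard : ℝ) := by
  classical
  obtain ⟨N, R, hN1, hcore⟩ := core_of stRL k hk
  refine ⟨N, R, fun A hA => ?_⟩
  obtain ⟨c, hc, h1⟩ := hcore A hA
  refine ⟨c, hc, fun ε hε => ?_⟩
  obtain ⟨K, hK, h2⟩ := h1 ε hε
  refine ⟨K, hK, fun q a hq ha => ?_⟩
  obtain ⟨X₀, hX₀⟩ := h2 q a hq ha
  refine ⟨max X₀ 3, fun X hX => ?_⟩
  have hX3 : 3 ≤ X := (le_max_right _ _).trans hX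
  have hlog : 0 < Real.log X := Real.log_pos (by linarith)
  have hmain := hX₀ X ((le_max_left _ _).trans hX)
  set Bad : Set ℝ := {H | Real.log X ≤ H ∧ H ≤ c * ff X ∧ ∃ S : Finset ℝ, (S.Nonempty ∧ S.card ≤ k ∧
    ∀ s ∈ S, 0 ≤ s ∧ s ≤ 1) ∧ ((Fol R q a A ε X H S).ncard : ℝ) < X ^ (7 / 8 : ℝ)} with hBad
  have key : ∀ E : Finset ℝ, (∀ x ∈ E, x ∈ Bad) → (∀ x ∈ E, ∀ y ∈ E, x < y → K * x ≤ y) → E.card < N := by
    intro E hE hsep
    by_contra hcard
    rw [not_lt] at hcard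
    obtain ⟨E', hE', hE'c⟩ := exists_subset_card_eq hcard
    set emb := E'.orderEmbOfFin hE'c with hemb
    have hmem : ∀ j : Fin N, emb j ∈ E' := fun j => orderEmbOfFin_mem E' hE'c j
    set H : ℕ → ℝ := fun j => if hj : j < N then emb ⟨j, hj⟩ else 0 with hH
    have hHj : ∀ j (hj : j < N), H j = emb ⟨j, hj⟩ := by
      intro j hj
      simp only [hH, hj, dite_true]
    have hHB : ∀ j < N, H j ∈ Bad := by
      intro j hj
      rw [hHj j hj]
      exact hE _ (hE' (hmem _))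
    have hSex : ∀ j, ∃ S : Finset ℝ, j < N → (S.Nonempty ∧ S.card ≤ k ∧
        ∀ s ∈ S, 0 ≤ s ∧ s ≤ 1) ∧ ((Fol R q a A ε X (H j) S).ncard : ℝ) < X ^ (7 / 8 : ℝ) := by
      intro j
      by_cases hj : j < N
      · obtain ⟨-, -, S, hS⟩ := hHB j hj
        exact ⟨S, fun _ => hS⟩
      · exact ⟨∅, fun h => absurd h hj⟩
    choose S hS using hSex
    obtain ⟨j, hj, h3⟩ := hmain H (hHB 0 (by omega)).1 (by
      intro j hj
      rw [hHj j (by omega), hHj (j + 1) hj]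
      apply hsep _ (hE' (hmem _)) _ (hE' (hmem _))
      apply emb.strictMono
      exact Fin.mk_lt_mk.2 (Nat.lt_succ_self j)) (hHB (N - 1) (by omega)).2.1 S (fun j hj => (hS j hj).1)
    have h4 := (hS j hj).2
    linarith
  obtain ⟨m, ⟨E, hE1, hE2, hE3⟩, hmax⟩ : ∃ m, (∃ E : Finset ℝ, (∀ x ∈ E, x ∈ Bad) ∧
      (∀ x ∈ E, ∀ y ∈ E, x < y → K * x ≤ y) ∧ E.card = m) ∧
      ∀ m', (∃ E : Finset ℝ, (∀ x ∈ E, x ∈ Bad) ∧
      (∀ x ∈ E, ∀ y ∈ E, x < y → K * x ≤ y) ∧ E.card = m') → m' ≤ m := by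
    set P : ℕ → Prop := fun m => ∃ E : Finset ℝ, (∀ x ∈ E, x ∈ Bad) ∧
      (∀ x ∈ E, ∀ y ∈ E, x < y → K * x ≤ y) ∧ E.card = m with hP
    have hP0 : P 0 := ⟨∅, by simp, by simp, by simp⟩
    refine ⟨Nat.findGreatest P N, Nat.findGreatest_spec (Nat.zero_le N) hP0, ?_⟩
    intro m' hm'
    apply Nat.le_findGreatest _ hm'
    obtain ⟨E, h1, h2, h3⟩ := hm'
    rw [← h3]
    exact (key E h1 h2).le
  refine ⟨E, (key E hE1 hE2).le, ?_⟩
  intro H hH1 hH2 hHE S hS1 hS2 hS3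
  by_contra hcon
  rw [not_le] at hcon
  have hHBad : H ∈ Bad := ⟨hH1, hH2, S, ⟨hS1, hS2, hS3⟩, hcon⟩
  have hHpos : 0 < H := hlog.trans_le hH1
  have hHnE : H ∉ E := by
    intro h
    rcases hHE H h with h3 | h3 <;> nlinarith
  have h3 := hmax (E.card + 1) ⟨insert H E, by
      intro x hx
      rcases mem_insert.1 hx with rfl | h
      · exact hHBad
      · exact hE1 x h, by
      intro x hx y hy hxy
      rcases mem_insert.1 hx with h | h
      · subst h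
        rcases mem_insert.1 hy with h' | h'
        · exact absurd hxy (by rw [h']; exact lt_irrefl _)
        · rcases hHE y h' with h4 | h4
          · exact h4
          · exfalso
            nlinarith
      · have hx0 : 0 < x := hlog.trans_le (hE1 x h).1
        rcases mem_insert.1 hy with h' | h'
        · subst h'
          rcases hHE x h with h4 | h4
          · exfalso
            nlinarith
          · exact h4
        · exact hE2 x h y h' hxy, card_insert_of_notMem hHnE⟩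
  omega

theorem one_scale (k : ℕ) (hk : 1 ≤ k) : ∃ R : ℕ, ∀ A : ℝ, 1 ≤ A → ∀ ε : ℝ, 0 < ε → ∃ C : ℝ,
    ∀ q a : ℕ, Squarefree q → a.Coprime q →
    ∃ X₀ : ℝ, ∀ X : ℝ, X₀ ≤ X → ∃ H : ℝ, Real.log X ≤ H ∧ H ≤ C * Real.log X ∧
      ∀ S : Finset ℝ, S.Nonempty → S.card ≤ k → (∀ s ∈ S, 0 ≤ s ∧ s ≤ 1) →
        X ^ (7 / 8 : ℝ) ≤ ((Fol R q a A ε X H S).ncard : ℝ) := by
  classical
  obtain ⟨N, R, hmain⟩ := scales k hk
  refine ⟨R, fun A hA ε hε => ?_⟩
  obtain ⟨c, hc, h1⟩ := hmain A hA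
  obtain ⟨K, hK, h2⟩ := h1 ε hε
  refine ⟨K ^ (2 * N), fun q a hq ha => ?_⟩
  obtain ⟨X₀, hX₀⟩ := h2 q a hq ha
  have t1 := Real.tendsto_log_atTop
  have t2 : Tendsto (fun X : ℝ => Real.log (Real.log X)) atTop atTop := t1.comp t1
  rw [← Filter.eventually_atTop]
  filter_upwards [eventually_ge_atTop X₀, t1.eventually_ge_atTop 1, t2.eventually_ge_atTop (K ^ (2 * N) / c),
    Pool.Agent.H312R2.RG.C3.ff_lower] with X hX hlog hll hff
  obtain ⟨E, hEc, hE⟩ := hX₀ X hX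
  have hK1 : 1 ≤ K := by linarith
  have hpos : 0 < Real.log X := by linarith
  obtain ⟨i, hi, hgood⟩ : ∃ i ≤ N, ∀ B ∈ E, K * (K ^ (2 * i) * Real.log X) ≤ B ∨
      K * B ≤ K ^ (2 * i) * Real.log X := by
    by_contra hcon
    push Not at hcon
    have hcon' : ∀ i, ∃ B, i ≤ N → B ∈ E ∧ B < K * (K ^ (2 * i) * Real.log X) ∧
        K ^ (2 * i) * Real.log X < K * B := by
      intro i
      by_cases hi : i ≤ N
      · obtain ⟨B, h3⟩ := hcon i hi
        exact ⟨B, fun _ => h3⟩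
      · exact ⟨0, fun h => absurd h hi⟩
    choose B hB using hcon'
    obtain ⟨i, hi, j, hj, hij, hBB⟩ := exists_ne_map_eq_of_card_lt_of_maps_to
      (s := range (N + 1)) (t := E) (f := B) (by rw [card_range]; omega) (by
        intro i hi
        exact (hB i (by have := mem_range.1 (mem_coe.1 hi); omega)).1)
    rw [mem_range] at hi hj
    have main : ∀ i j, i < N + 1 → j < N + 1 → i < j → B i = B j → False := by
      intro i j hi hj hij hBB
      have e1 := (hB i (by omega)).2.1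
      have e2 := (hB j (by omega)).2.2
      rw [← hBB] at e2
      have e3 : K ^ (2 * i + 2) ≤ K ^ (2 * j) := pow_le_pow_right₀ hK1 (by omega)
      have e4 : K ^ (2 * i + 2) * Real.log X ≤ K ^ (2 * j) * Real.log X := mul_le_mul_of_nonneg_right e3 hpos.le
      have e5 : K * B i < K * (K * (K ^ (2 * i) * Real.log X)) := mul_lt_mul_of_pos_left e1 (by linarith)
      have e6 : K * (K * (K ^ (2 * i) * Real.log X)) = K ^ (2 * i + 2) * Real.log X := by ring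
      linarith
    rcases lt_or_gt_of_ne hij with h3 | h3
    · exact main i j hi hj h3 hBB
    · exact main j i hj hi h3 hBB.symm
  have e1 : (1 : ℝ) ≤ K ^ (2 * i) := one_le_pow₀ hK1
  have e2 : K ^ (2 * i) ≤ K ^ (2 * N) := pow_le_pow_right₀ hK1 (by omega)
  have e3 : Real.log X ≤ K ^ (2 * i) * Real.log X := by nlinarith
  have e4 : K ^ (2 * i) * Real.log X ≤ K ^ (2 * N) * Real.log X := mul_le_mul_of_nonneg_right e2 hpos.le
  refine ⟨K ^ (2 * i) * Real.log X, e3, e4, ?_⟩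
  apply hE _ e3 (e4.trans ?_) hgood
  rw [div_le_iff₀ hc] at hll
  calc K ^ (2 * N) * Real.log X ≤ Real.log (Real.log X) * c * Real.log X :=
        mul_le_mul_of_nonneg_right hll hpos.le
    _ = c * (Real.log X * Real.log (Real.log X)) := by ring
    _ ≤ c * ff X := mul_le_mul_of_nonneg_left hff hc.le

end Pool.Agent.J6H17.SH
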