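import Pool.Agent.R453.GS.Apg0
import Pool.Agent.H312R2.RG.C3a

set_option autoImplicit false

/-! Primes in progressions and in intervals shorter than `z / (log z) ^ U`; the record function. -/

namespace Pool.Agent.J6H17.SH

open Finset Filter
open Pool.Agent.H256R2.SC (ff)
open Pool.Agent.H442R2.EHI (lis)

theorem lis_diff (m M : ℕ) (hm : 2 ≤ m) (hM : m ≤ M) :
    ((M : ℝ) - m) / Real.log M ≤ lis M - lis m := by
  unfold lis
  have h1 : Icc 2 M = Icc 2 m ∪ Ioc m M := by
    ext x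
    simp only [mem_Icc, mem_union, mem_Ioc]
    omega
  have h2 : Disjoint (Icc 2 m) (Ioc m M) := by
    rw [disjoint_left]
    intro x hx hx'
    rw [mem_Icc] at hx
    rw [mem_Ioc] at hx'
    omega
  rw [h1, sum_union h2, add_sub_cancel_left]
  have h3 : ∑ _n ∈ Ioc m M, 1 / Real.log M ≤ ∑ n ∈ Ioc m M, 1 / Real.log n := by
    apply sum_le_sum
    intro n hn
    rw [mem_Ioc] at hn
    have hn2 : (2 : ℝ) ≤ n := by exact_mod_cast (by omega : 2 ≤ n)
    apply one_div_le_one_div_of_le (Real.log_pos (by linarith))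
    exact Real.log_le_log (by linarith) (by exact_mod_cast hn.2)
  rw [sum_const, Nat.card_Ioc, nsmul_eq_mul] at h3
  refine le_trans (le_of_eq ?_) h3
  rw [Nat.cast_sub hM]
  ring

/-- primes in short intervals and progressions -/
theorem exists_prime_short (q : ℕ) (hq : 1 ≤ q) (a : ℕ) (haq : a.Coprime q) (U : ℕ) :
    ∀ᶠ z : ℝ in atTop, ∀ w : ℝ, z / Real.log z ^ U ≤ w →
      ∃ p : ℕ, p.Prime ∧ p ≡ a [MOD q] ∧ z < p ∧ (p : ℝ) ≤ z + w := by
  obtain ⟨x0, hx0⟩ := Pool.Agent.R453.GS.pap 1 (U + 3)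
  have hφ : (0 : ℝ) < Nat.totient q := by exact_mod_cast Nat.totient_pos.2 (by omega)
  have hlog := Real.tendsto_log_atTop
  have hsm := (Real.isLittleO_pow_log_id_atTop (n := U)).def (show (0 : ℝ) < 1 / 4 by norm_num)
  filter_upwards [eventually_ge_atTop ((x0 : ℝ) + 4), hlog.eventually_ge_atTop (2 * (q : ℝ) + 4), hsm,
    hlog.eventually_gt_atTop (2 ^ (U + 8) * (Nat.totient q : ℝ) + 1)] with z hz1 hz2 hz3 hz4 w hw
  have hqR : (1 : ℝ) ≤ q := by exact_mod_cast hq
  have hx0R : (0 : ℝ) ≤ x0 := Nat.cast_nonneg _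
  have hz0 : 0 < z := by linarith
  set L := Real.log z with hL
  have hL0 : 0 < L := by linarith
  have hL1 : 1 ≤ L := by linarith
  have hLU : 0 < L ^ U := by positivity
  have hLUz : 4 * L ^ U ≤ z := by
    simp only [id, Real.norm_eq_abs] at hz3
    rw [abs_of_pos hLU, abs_of_pos hz0] at hz3
    linarith
  obtain ⟨w0, hw0⟩ : ∃ w0, w0 = z / L ^ U := ⟨_, rfl⟩
  have hw4 : 4 ≤ w0 := by rw [hw0, le_div_iff₀ hLU]; exact hLUz
  have hwz : w0 ≤ z := by
    rw [hw0, div_le_iff₀ hLU]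
    have : 1 ≤ L ^ U := one_le_pow₀ hL1
    nlinarith
  have hww : w0 ≤ w := by rw [hw0]; exact hw
  obtain ⟨m, hm⟩ : ∃ m, m = ⌊z⌋₊ := ⟨_, rfl⟩
  obtain ⟨M, hM⟩ : ∃ M, M = ⌊z + w0⌋₊ := ⟨_, rfl⟩
  have hm1 : (m : ℝ) ≤ z := by rw [hm]; exact Nat.floor_le hz0.le
  have hm2 : z < m + 1 := by rw [hm]; exact Nat.lt_floor_add_one _
  have hM1 : (M : ℝ) ≤ z + w0 := by rw [hM]; exact Nat.floor_le (by linarith)
  have hM2 : z + w0 < M + 1 := by rw [hM]; exact Nat.lt_floor_add_one _
  have hmMR : (m : ℝ) ≤ M := by linarith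
  have hmM : m ≤ M := by exact_mod_cast hmMR
  have hmx : x0 ≤ m := by
    have : (x0 : ℝ) ≤ m := by linarith
    exact_mod_cast this
  have hm2' : 2 ≤ m := by
    have : (2 : ℝ) ≤ m := by linarith
    exact_mod_cast this
  have hmR : (2 : ℝ) ≤ m := by exact_mod_cast hm2'
  have hMR : (2 : ℝ) ≤ M := by linarith
  have hlm : L / 2 ≤ Real.log m := by
    have h1 : z / 2 ≤ m := by linarith
    have h2 := Real.log_le_log (by positivity) h1
    rw [Real.log_div hz0.ne' (by norm_num)] at h2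
    have h3 : Real.log 2 ≤ 1 := by
      have := Real.log_two_lt_d9
      linarith
    linarith
  have hlM : L / 2 ≤ Real.log M := hlm.trans (Real.log_le_log (by linarith) hmMR)
  have hlM2 : Real.log M ≤ 2 * L := by
    have h1 : (M : ℝ) ≤ 2 * z := by linarith
    have h2 := Real.log_le_log (by linarith) h1
    rw [Real.log_mul (by norm_num) hz0.ne'] at h2
    have h3 : Real.log 2 ≤ 1 := by
      have := Real.log_two_lt_d9
      linarith
    linarith
  have hqm : (q : ℝ) ≤ Real.log m ^ 1 := by rw [pow_one]; linarith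
  have hqM : (q : ℝ) ≤ Real.log M ^ 1 := by rw [pow_one]; linarith
  have e1 := hx0 m hmx q hq hqm a haq
  have e2 := hx0 M (hmx.trans hmM) q hq hqM a haq
  rw [abs_le] at e1 e2
  have e3 := lis_diff m M hm2' hmM
  have hL2 : 0 < (L / 2) ^ (U + 3) := by positivity
  have e4 : (m : ℝ) / Real.log m ^ (U + 3) ≤ z / (L / 2) ^ (U + 3) := by
    apply div_le_div₀ hz0.le hm1 hL2
    exact pow_le_pow_left₀ (by positivity) hlm _
  have e5 : (M : ℝ) / Real.log M ^ (U + 3) ≤ 2 * z / (L / 2) ^ (U + 3) := by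
    apply div_le_div₀ (by positivity) (by linarith) hL2
    exact pow_le_pow_left₀ (by positivity) hlM _
  have e6 : w0 / (4 * L) ≤ ((M : ℝ) - m) / Real.log M := by
    rw [div_le_div_iff₀ (by positivity) (by linarith)]
    have h1 : w0 / 2 ≤ (M : ℝ) - m := by linarith
    have h2 : w0 * Real.log M ≤ w0 * (2 * L) := mul_le_mul_of_nonneg_left hlM2 (by linarith)
    have h3 : w0 / 2 * (4 * L) ≤ ((M : ℝ) - m) * (4 * L) := mul_le_mul_of_nonneg_right h1 (by positivity)
    linarith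
  have e7 : z / (L / 2) ^ (U + 3) + 2 * z / (L / 2) ^ (U + 3) < w0 / (4 * L) / (Nat.totient q : ℝ) := by
    rw [← add_div, div_div, div_lt_div_iff₀ hL2 (by positivity), hw0]
    have h1 : (L / 2) ^ (U + 3) = L ^ (U + 3) / 2 ^ (U + 3) := by rw [div_pow]
    rw [h1]
    have h2 : z / L ^ U * (L ^ (U + 3) / 2 ^ (U + 3)) = z * L ^ 3 / 2 ^ (U + 3) := by
      rw [pow_add]
      field_simp
    rw [h2, lt_div_iff₀ (by positivity)]
    have h3 : (z + 2 * z) * (4 * L * (Nat.totient q : ℝ)) * 2 ^ (U + 3) =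
        z * L * (12 * 2 ^ (U + 3) * (Nat.totient q : ℝ)) := by ring
    have h4 : z * L ^ 3 = z * L * L ^ 2 := by ring
    rw [h3, h4]
    apply mul_lt_mul_of_pos_left _ (by positivity)
    have h5 : (2 : ℝ) ^ (U + 8) = 32 * 2 ^ (U + 3) := by
      rw [show U + 8 = (U + 3) + 5 by ring, pow_add]
      norm_num
      ring
    rw [h5] at hz4
    have h6 : 0 < 2 ^ (U + 3) * (Nat.totient q : ℝ) := by positivity
    have h7 : L * 1 ≤ L ^ 2 := by nlinarith
    nlinarith
  have e8 : w0 / (4 * L) / (Nat.totient q : ℝ) ≤ lis M / (Nat.totient q : ℝ) - lis m / (Nat.totient q : ℝ) := by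
    rw [← sub_div]
    exact div_le_div_of_nonneg_right (e6.trans e3) hφ.le
  have e9 : ((((Icc 1 m).filter (fun p => p.Prime ∧ p ≡ a [MOD q])).card : ℕ) : ℝ) <
      (((Icc 1 M).filter (fun p => p.Prime ∧ p ≡ a [MOD q])).card : ℕ) := by
    have h1 := e1.2
    have h2 := e2.1
    linarith
  have e10 : ((Icc 1 m).filter (fun p => p.Prime ∧ p ≡ a [MOD q])).card <
      ((Icc 1 M).filter (fun p => p.Prime ∧ p ≡ a [MOD q])).card := by exact_mod_cast e9
  obtain ⟨p, hp1, hp2⟩ := exists_mem_notMem_of_card_lt_card e10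
  rw [mem_filter, mem_Icc] at hp1
  rw [mem_filter, mem_Icc] at hp2
  have hpm : m < p := by
    by_contra h
    exact hp2 ⟨⟨hp1.1.1, not_lt.1 h⟩, hp1.2⟩
  refine ⟨p, hp1.2.1, hp1.2.2, ?_, ?_⟩
  · have : (m : ℝ) + 1 ≤ p := by exact_mod_cast hpm
    linarith
  · have : (p : ℝ) ≤ M := by exact_mod_cast hp1.1.2
    linarith

/-- the record function is smaller than `log X (log log X) ^ 2` -/
theorem ff_le : ∀ᶠ X : ℝ in atTop, ff X ≤ Real.log X * Real.log (Real.log X) ^ 2 := by
  have t1 := Real.tendsto_log_atTop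
  have t2 : Tendsto (fun X : ℝ => Real.log (Real.log X)) atTop atTop := t1.comp t1
  have t3 : Tendsto (fun X : ℝ => Real.log (Real.log (Real.log X))) atTop atTop := t1.comp t2
  filter_upwards [t1.eventually_ge_atTop 1, t2.eventually_ge_atTop 1, t3.eventually_ge_atTop 1]
    with X h1 h2 h3
  unfold ff
  rw [div_le_iff₀ (by positivity)]
  have h4 : Real.log (Real.log (Real.log (Real.log X))) ≤ Real.log (Real.log (Real.log X)) :=
    Real.log_le_self (by linarith)
  have h5 : Real.log (Real.log (Real.log (Real.log X))) ≤ Real.log (Real.log (Real.log X)) ^ 2 := by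
    nlinarith
  exact mul_le_mul_of_nonneg_left h5 (by positivity)

/-- short intervals at the scale `log X` -/
theorem short_ok (c η : ℝ) (hη : 0 < η) : ∀ᶠ X : ℝ in atTop, ∀ z : ℝ, Real.log X ≤ z → z ≤ c * ff X →
    z / Real.log z ^ 3 ≤ η * Real.log X := by
  have t1 := Real.tendsto_log_atTop
  have t2 : Tendsto (fun X : ℝ => Real.log (Real.log X)) atTop atTop := t1.comp t1
  filter_upwards [ff_le, t1.eventually_ge_atTop 1, t2.eventually_ge_atTop 1,
    t2.eventually_ge_atTop (|c| / η), Pool.Agent.H312R2.RG.C3.ff_tendsto.eventually_ge_atTop 0]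
    with X h1 h2 h3 h4 h5
  intro z hz1 hz2
  have hz0 : 0 < z := by linarith
  have h6 : Real.log (Real.log X) ≤ Real.log z := Real.log_le_log (by linarith) hz1
  rw [div_le_iff₀ (by have : 0 < Real.log z := by linarith
                      positivity)]
  rw [div_le_iff₀ hη] at h4
  have h7 : z ≤ |c| * (Real.log X * Real.log (Real.log X) ^ 2) := by
    calc z ≤ c * ff X := hz2
      _ ≤ |c| * ff X := mul_le_mul_of_nonneg_right (le_abs_self c) h5
      _ ≤ _ := mul_le_mul_of_nonneg_left h1 (abs_nonneg c)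
  have h8 : Real.log (Real.log X) ^ 3 ≤ Real.log z ^ 3 := pow_le_pow_left₀ (by linarith) h6 3
  calc z ≤ |c| * (Real.log X * Real.log (Real.log X) ^ 2) := h7
    _ ≤ (Real.log (Real.log X) * η) * (Real.log X * Real.log (Real.log X) ^ 2) :=
        mul_le_mul_of_nonneg_right h4 (by positivity)
    _ = η * Real.log X * Real.log (Real.log X) ^ 3 := by ring
    _ ≤ _ := mul_le_mul_of_nonneg_left h8 (by positivity)

end Pool.Agent.J6H17.SH
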